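import Mathlib

set_option autoImplicit false

namespace Pool.Agent.H.MP_f762b7_al

open Submodule Set

section chain
variable {R : Type*} [CommRing R] {M : Type*} [AddCommGroup M] [Module R M]

theorem free_of_set (N : Submodule R M) (B : Set M) (hB : LinearIndepOn R id B)
    (hs : span R B = N) : Module.Free R N := by
  subst hs
  have h1 : LinearIndependent R (fun x : B => (x : M)) := hB
  have b := Module.Basis.span h1
  have e : range (fun x : B => (x : M)) = B := by simp
  rw [e] at b
  exact Module.Free.of_basis b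

theorem set_of_free [Nontrivial R] (N : Submodule R M) [Module.Free R N] :
    ∃ B : Set M, LinearIndepOn R id B ∧ span R B = N := by
  let b := Module.Free.chooseBasis R N
  refine ⟨range (fun i => (b i : M)), ?_, ?_⟩
  · have h : LinearIndependent R (fun i => (b i : M)) :=
      b.linearIndependent.map' N.subtype (by simp)
    exact h.linearIndepOn_id
  · have : range (fun i => (b i : M)) = N.subtype '' range b := by
      ext x; simp
    rw [this, span_image, b.span_eq]
    simp

theorem extend [Nontrivial R] (N N' : Submodule R M) (h : N ≤ N') (B : Set M)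
    (hB : LinearIndepOn R id B)
    (hs : span R B = N) [Module.Free R (N' ⧸ N.submoduleOf N')] :
    ∃ B' : Set M, B ⊆ B' ∧ LinearIndepOn R id B' ∧ span R B' = N' := by
  let b := Module.Free.chooseBasis R (N' ⧸ N.submoduleOf N')
  choose c hc using fun i => (N.submoduleOf N').mkQ_surjective (b i)
  let ψ : (N' ⧸ N.submoduleOf N') →ₗ[R] (M ⧸ N) :=
    (N.submoduleOf N').mapQ N N'.subtype (fun x hx => hx)
  have hψ : LinearMap.ker ψ = ⊥ := by
    rw [eq_bot_iff]
    intro x hx
    obtain ⟨x, rfl⟩ := (N.submoduleOf N').mkQ_surjective x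
    simp only [LinearMap.mem_ker, mkQ_apply, ψ, mapQ_apply, Quotient.mk_eq_zero] at hx
    simp only [mem_bot, mkQ_apply, Quotient.mk_eq_zero]
    exact hx
  have hli : LinearIndependent R (fun i => N.mkQ (c i : M)) := by
    have := b.linearIndependent.map' ψ hψ
    have e : (fun i => N.mkQ (c i : M)) = ψ ∘ b := by
      funext i
      simp only [Function.comp, ← hc i, ψ, mkQ_apply, mapQ_apply]
      rfl
    rw [e]
    exact this
  refine ⟨B ∪ range (fun i => (c i : M)), subset_union_left, ?_, ?_⟩
  · refine LinearIndepOn.union_id_of_quotient (M' := N) (hs ▸ subset_span) hB ?_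
    have hinj : Function.Injective (fun i => (c i : M)) :=
      Function.Injective.of_comp (f := N.mkQ) hli.injective
    exact (linearIndepOn_range_iff hinj _).2 hli
  · apply le_antisymm
    · rw [span_le]
      rintro x (hx | ⟨i, rfl⟩)
      · exact h (hs ▸ subset_span hx)
      · exact (c i).2
    · intro x hx
      let y : N' := ⟨x, hx⟩
      let l := b.repr ((N.submoduleOf N').mkQ y)
      let z : N' := Finsupp.linearCombination R c l
      have hz : (N.submoduleOf N').mkQ z = (N.submoduleOf N').mkQ y := by
        have : (N.submoduleOf N').mkQ z = Finsupp.linearCombination R b l := by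
          simp only [z]
          rw [Finsupp.apply_linearCombination]
          congr 2
          funext i
          exact hc i
        rw [this]
        exact b.linearCombination_repr _
      have hd : (y - z : N') ∈ N.submoduleOf N' := by
        rw [← Submodule.Quotient.eq]
        exact hz.symm
      have hd' : x - (z : M) ∈ N := hd
      have hz' : (z : M) ∈ span R (B ∪ range (fun i => (c i : M))) := by
        have : (z : M) = Finsupp.linearCombination R (fun i => (c i : M)) l := by
          simp only [z]
          exact Finsupp.apply_linearCombination R N'.subtype c l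
        rw [this]
        apply span_mono subset_union_right
        rw [← Finsupp.range_linearCombination]
        exact ⟨l, rfl⟩
      have hx' : x - (z : M) ∈ span R (B ∪ range (fun i => (c i : M))) :=
        span_mono subset_union_left (hs ▸ hd')
      simpa using add_mem hx' hz'

theorem free_of_chain [Nontrivial R] {ι : Type*} [Preorder ι] (N : ι → Submodule R M)
    (hN : Monotone N) (T : Submodule R M) (i0 : ι) (h0 : Module.Free R (N i0))
    (hc : ∀ c : Set ι, IsChain (· ≤ ·) c → c.Nonempty →
      ∃ u, (∀ i ∈ c, i ≤ u) ∧ ∀ x ∈ N u, ∃ i ∈ c, x ∈ N i)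
    (hs : ∀ i, N i ≠ T → Module.Free R (N i) →
      ∃ j, i ≤ j ∧ N i ≠ N j ∧ Module.Free R (N j ⧸ (N i).submoduleOf (N j))) :
    Module.Free R T := by
  let S : Set (ι × Set M) := {q | LinearIndepOn R id q.2 ∧ span R q.2 = N q.1}
  obtain ⟨B0, hB0, hs0⟩ := set_of_free (N i0)
  have hz := zorn_le_nonempty₀ S ?_ (i0, B0) ⟨hB0, hs0⟩
  · obtain ⟨⟨i, B⟩, -, hm⟩ := hz
    have hm1 : LinearIndepOn R id B ∧ span R B = N i := hm.1
    have hfi : Module.Free R (N i) := free_of_set _ B hm1.1 hm1.2
    by_cases hT : N i = T
    · exact hT ▸ hfi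
    obtain ⟨j, hij, hne, hf⟩ := hs i hT hfi
    obtain ⟨B', hBB, hB', hs'⟩ := extend (N i) (N j) (hN hij) B hm1.1 hm1.2
    have := hm.2 (y := (j, B')) ⟨hB', hs'⟩ ⟨hij, hBB⟩
    exact absurd (le_antisymm (hN hij) (hN this.1)) hne
  · intro c hcS hch y hy
    have hch1 : IsChain (· ≤ ·) (Prod.fst '' c) := by
      rintro _ ⟨a, ha, rfl⟩ _ ⟨b, hb, rfl⟩ hab
      rcases hch.total ha hb with h | h
      · exact Or.inl h.1
      · exact Or.inr h.1
    have hch2 : IsChain (· ⊆ ·) (Prod.snd '' c) := by
      rintro _ ⟨a, ha, rfl⟩ _ ⟨b, hb, rfl⟩ hab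
      rcases hch.total ha hb with h | h
      · exact Or.inl h.2
      · exact Or.inr h.2
    obtain ⟨u, hu1, hu2⟩ := hc _ hch1 ⟨_, y, hy, rfl⟩
    refine ⟨(u, ⋃₀ (Prod.snd '' c)), ⟨?_, ?_⟩, ?_⟩
    · apply linearIndepOn_sUnion_of_directed hch2.directedOn
      rintro _ ⟨a, ha, rfl⟩
      exact (hcS ha).1
    · apply le_antisymm
      · rw [span_le]
        rintro x ⟨_, ⟨a, ha, rfl⟩, hx⟩
        apply hN (hu1 a.1 ⟨a, ha, rfl⟩)
        rw [← (hcS ha).2]
        exact subset_span hx
      · intro x hx
        obtain ⟨_, ⟨a, ha, rfl⟩, hxa⟩ := hu2 x hx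
        rw [← (hcS ha).2] at hxa
        exact span_mono (subset_sUnion_of_mem (mem_image_of_mem Prod.snd ha)) hxa
    · intro z hz
      exact ⟨hu1 z.1 ⟨z, hz, rfl⟩, subset_sUnion_of_mem ⟨z, hz, rfl⟩⟩

end chain

section pid
variable {R : Type*} [CommRing R] [IsDomain R] [IsPrincipalIdealRing R]

omit [IsDomain R] [IsPrincipalIdealRing R] in
theorem free_quot_of_range {M P : Type*} [AddCommGroup M] [Module R M] [AddCommGroup P]
    [Module R P] (N : Submodule R M) (f : M →ₗ[R] P) (hk : LinearMap.ker f = N)
    (hf : Module.Free R (LinearMap.range f)) : Module.Free R (M ⧸ N) := by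
  subst hk
  exact Module.Free.of_equiv (LinearMap.quotKerEquivRange f).symm

theorem free_sub_finsupp {I : Type*} (W : Submodule R (I →₀ R)) : Module.Free R W := by
  classical
  refine free_of_chain (ι := Set I) (fun J => W ⊓ Finsupp.supported R R J) ?_ W ∅ ?_ ?_ ?_
  · intro J J' h
    exact inf_le_inf_left _ (Finsupp.supported_mono h)
  · rw [Finsupp.supported_empty, inf_bot_eq]
    infer_instance
  · intro c hc hne
    refine ⟨⋃₀ c, fun i hi => subset_sUnion_of_mem hi, ?_⟩
    intro x hx
    have h2 : (x.support : Set I) ⊆ ⋃₀ c := hx.2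
    obtain ⟨J, hJ, hJ'⟩ := DirectedOn.exists_mem_subset_of_finset_subset_biUnion
      (f := fun J : Set I => J) hne hc.directedOn (s := x.support) (by rwa [← sUnion_eq_biUnion])
    exact ⟨J, hJ, hx.1, hJ'⟩
  · intro J hJ _
    have : ∃ w ∈ W, w ∉ Finsupp.supported R R J := by
      by_contra hcon
      push Not at hcon
      exact hJ (inf_eq_left.2 hcon)
    obtain ⟨w, hw, hwJ⟩ := this
    refine ⟨J ∪ w.support, subset_union_left, ?_, ?_⟩
    · intro h
      have : w ∈ W ⊓ Finsupp.supported R R (J ∪ w.support) :=
        ⟨hw, (Finsupp.mem_supported R w).2 subset_union_right⟩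
      rw [← h] at this
      exact hwJ this.2
    · let t : Finset I := w.support.filter (fun i => i ∉ J)
      let f : ↥(W ⊓ Finsupp.supported R R (J ∪ w.support)) →ₗ[R] (t → R) :=
        LinearMap.pi (fun i => (Finsupp.lapply (i : I)) ∘ₗ Submodule.subtype _)
      refine free_quot_of_range _ f ?_ inferInstance
      ext x
      simp only [LinearMap.mem_ker]
      constructor
      · intro hx
        refine ⟨x.2.1, (Finsupp.mem_supported R _).2 ?_⟩
        intro i hi
        by_contra hiJ
        have h3 : i ∈ J ∪ (w.support : Set I) := (Finsupp.mem_supported R _).1 x.2.2 hi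
        have h4 : i ∈ t := by
          simp only [t, Finset.mem_filter]
          exact ⟨h3.resolve_left hiJ, hiJ⟩
        have h5 := congrFun hx ⟨i, h4⟩
        exact (Finsupp.mem_support_iff.1 hi) h5
      · intro hx
        funext i
        have h3 : ((x : I →₀ R).support : Set I) ⊆ J := (Finsupp.mem_supported R _).1 hx.2
        have h4 : (i : I) ∉ J := (Finset.mem_filter.1 i.2).2
        by_contra h5
        exact h4 (h3 (Finsupp.mem_support_iff.2 h5))

theorem free_sub {M : Type*} [AddCommGroup M] [Module R M] [Module.Free R M]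
    (W : Submodule R M) : Module.Free R W := by
  let b := Module.Free.chooseBasis R M
  have := free_sub_finsupp (W.map b.repr.toLinearMap)
  exact Module.Free.of_equiv (b.repr.submoduleMap W).symm

end pid

end Pool.Agent.H.MP_f762b7_al
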