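import Pool.Agent.H.MP_f762b7_al.Perf

set_option autoImplicit false

namespace Pool.Agent.H.MP_f762b7_al

open Polynomial

theorem free_perfect (F : Type*) [Field F] [PerfectField F] (p : ℕ) {Ω : Type*} [Field Ω]
    [ExpChar Ω p] [IsAlgClosed Ω] [Algebra F Ω] [Algebra F[X] Ω] [IsScalarTower F F[X] Ω]
    [FaithfulSMul F[X] Ω] [Algebra.IsAlgebraic F[X] Ω] :
    Module.Free F[X] (integralClosure F[X] Ω) := by
  let := FractionRing.liftAlgebra F[X] Ω
  have := FractionRing.isScalarTower_liftAlgebra F[X] Ω
  have : Algebra.IsAlgebraic (FractionRing F[X]) Ω :=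
    (IsFractionRing.comap_isAlgebraic_iff (A := F[X])).1 inferInstance
  exact free_closure (FractionRing F[X]) p (root_fg_poly F p)

attribute [local instance] Polynomial.algebra in
theorem free_any (k : Type*) [Field k] (p : ℕ) {Ω : Type*} [Field Ω]
    [ExpChar Ω p] [IsAlgClosed Ω] [Algebra k Ω] [Algebra k[X] Ω] [IsScalarTower k k[X] Ω]
    [FaithfulSMul k[X] Ω] [Algebra.IsAlgebraic k[X] Ω] :
    Module.Free k[X] (integralClosure k[X] Ω) := by
  let F := perfectClosure k Ω
  let x : Ω := algebraMap k[X] Ω X
  let : Algebra F[X] Ω := (aeval x : F[X] →ₐ[F] Ω).toRingHom.toAlgebra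
  have hF : ∀ g : F[X], algebraMap F[X] Ω g = aeval x g := fun _ => rfl
  have : IsScalarTower F F[X] Ω := IsScalarTower.of_algebraMap_eq (fun a => by
    rw [hF]; simp)
  have : IsScalarTower k[X] F[X] Ω := IsScalarTower.of_algebraMap_eq (fun a => by
    rw [hF, Polynomial.algebraMap_def, coe_mapRingHom, aeval_map_algebraMap,
      aeval_algebraMap_apply, aeval_X_left_apply])
  have hx : Transcendental k x := by
    rw [transcendental_iff_injective]
    intro a b hab
    rw [aeval_algebraMap_apply, aeval_algebraMap_apply, aeval_X_left_apply,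
      aeval_X_left_apply] at hab
    exact FaithfulSMul.algebraMap_injective k[X] Ω hab
  have hx' : Transcendental F x := hx.extendScalars F
  have : FaithfulSMul F[X] Ω :=
    (faithfulSMul_iff_algebraMap_injective F[X] Ω).2 (transcendental_iff_injective.1 hx')
  have : Algebra.IsAlgebraic F[X] Ω :=
    Algebra.IsAlgebraic.extendScalars (R := k[X])
      (Polynomial.map_injective _ (algebraMap k F).injective)
  have h1 : Module.Free F[X] (integralClosure F[X] Ω) := free_perfect F p
  have h2 : Module.Free k[X] F[X] :=
    (Algebra.IsPushout.out (R := k) (S := k[X]) (R' := F) (S' := F[X])).free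
  have h3 : Module.Free k[X] (integralClosure F[X] Ω) := Module.Free.trans (S := F[X])
  let f : integralClosure k[X] Ω →ₗ[k[X]] integralClosure F[X] Ω :=
    { toFun := fun s => ⟨s.1, IsIntegral.tower_top (R := k[X]) s.2⟩
      map_add' := fun _ _ => rfl
      map_smul' := fun _ _ => rfl }
  have hf : Function.Injective f := fun a b h =>
    Subtype.ext (congrArg (fun z : integralClosure F[X] Ω => (z : Ω)) h)
  have h4 := free_sub (LinearMap.range f)
  exact Module.Free.of_equiv (LinearEquiv.ofInjective f hf).symm

theorem exists_functional {R M : Type*} [CommRing R] [Nontrivial R] [AddCommGroup M] [Module R M]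
    [Module.Free R M] [Nontrivial M] : ∃ f : M →ₗ[R] R, f ≠ 0 := by
  let b := Module.Free.chooseBasis R M
  obtain ⟨i⟩ := b.index_nonempty
  refine ⟨b.coord i, fun h => ?_⟩
  have := congrArg (fun f => f (b i)) h
  simp at this

theorem main (p : ℕ) (hp : p.Prime) (k : Type) [Field k] [CharP k p] :
    ∃ f : ↥(integralClosure k[X] (AlgebraicClosure (FractionRing k[X]))) →ₗ[k[X]] k[X], f ≠ 0 := by
  have : Fact p.Prime := ⟨hp⟩
  have : ExpChar (AlgebraicClosure (FractionRing k[X])) p :=
    expChar_of_injective_algebraMap (algebraMap k _).injective p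
  have : FaithfulSMul k[X] (AlgebraicClosure (FractionRing k[X])) := by
    rw [faithfulSMul_iff_algebraMap_injective,
      IsScalarTower.algebraMap_eq k[X] (FractionRing k[X]) (AlgebraicClosure (FractionRing k[X]))]
    exact (algebraMap (FractionRing k[X]) _).injective.comp (IsFractionRing.injective k[X] _)
  have : Algebra.IsAlgebraic k[X] (AlgebraicClosure (FractionRing k[X])) :=
    (IsFractionRing.comap_isAlgebraic_iff (K := FractionRing k[X])).2 inferInstance
  have := free_any k p (Ω := AlgebraicClosure (FractionRing k[X]))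
  exact exists_functional

end Pool.Agent.H.MP_f762b7_al
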