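import Pool.Agent.H.MP_f762b7_al.Sep

set_option autoImplicit false

namespace Pool.Agent.H.MP_f762b7_al

open Submodule Set

theorem free_quot_fg {R : Type*} [CommRing R] [IsDomain R] [IsPrincipalIdealRing R] {M : Type*}
    [AddCommGroup M] [Module R M] (N N' : Submodule R M) (hfg : N'.FG)
    (hp : ∀ r : R, r ≠ 0 → ∀ y ∈ N', r • y ∈ N → y ∈ N) :
    Module.Free R (N' ⧸ N.submoduleOf N') := by
  have h1 : Module.Finite R N' := Module.Finite.iff_fg.2 hfg
  have h2 : Module.Finite R (N' ⧸ N.submoduleOf N') := Module.Finite.quotient R _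
  have h3 : Module.IsTorsionFree R (N' ⧸ N.submoduleOf N') := by
    refine Module.IsTorsionFree.of_smul_eq_zero ?_
    intro r y hy
    obtain ⟨y, rfl⟩ := Submodule.mkQ_surjective _ y
    by_cases hr : r = 0
    · exact Or.inl hr
    right
    rw [← map_smul, mkQ_apply, Quotient.mk_eq_zero] at hy
    rw [mkQ_apply, Quotient.mk_eq_zero]
    exact hp r hr y.1 y.2 hy
  exact Module.free_of_finite_type_torsion_free'

variable {R : Type*} [CommRing R] {Ω : Type*} [Field Ω] [Algebra R Ω]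

theorem pow_mono (p : ℕ) {s : Ω} {n m : ℕ} (h : n ≤ m) (hs : s ^ p ^ n ∈ (algebraMap R Ω).range) :
    s ^ p ^ m ∈ (algebraMap R Ω).range := by
  obtain ⟨d, rfl⟩ := Nat.exists_eq_add_of_le h
  rw [pow_add, pow_mul]
  exact pow_mem hs _

variable (R Ω) in
def root (p : ℕ) [ExpChar Ω p] (i : ℕ∞) : Submodule R Ω where
  carrier := {s | ∃ n : ℕ, (n : ℕ∞) ≤ i ∧ s ^ p ^ n ∈ (algebraMap R Ω).range}
  add_mem' := by
    rintro a b ⟨n, hn, ha⟩ ⟨m, hm, hb⟩
    refine ⟨max n m, ?_, ?_⟩
    · rcases le_total n m with h | h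
      · rwa [max_eq_right h]
      · rwa [max_eq_left h]
    · rw [add_pow_expChar_pow]
      exact add_mem (pow_mono p (le_max_left n m) ha) (pow_mono p (le_max_right n m) hb)
  zero_mem' := ⟨0, by simp, by simp⟩
  smul_mem' := by
    rintro c x ⟨n, hn, hx⟩
    refine ⟨n, hn, ?_⟩
    rw [Algebra.smul_def, mul_pow]
    exact mul_mem (pow_mem (RingHom.mem_range_self _ c) _) hx

theorem mem_root {p : ℕ} [ExpChar Ω p] {i : ℕ∞} {s : Ω} :
    s ∈ root R Ω p i ↔ ∃ n : ℕ, (n : ℕ∞) ≤ i ∧ s ^ p ^ n ∈ (algebraMap R Ω).range := Iff.rfl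

theorem root_mono (p : ℕ) [ExpChar Ω p] : Monotone (root R Ω p) := by
  rintro i j h x ⟨n, hn, hx⟩
  exact ⟨n, hn.trans h, hx⟩

theorem root_integral {p : ℕ} [ExpChar Ω p] {i : ℕ∞} {s : Ω} (h : s ∈ root R Ω p i) :
    IsIntegral R s := by
  obtain ⟨n, -, r, hr⟩ := h
  refine IsIntegral.of_pow (n := p ^ n) (pow_pos (expChar_pos Ω p) n) ?_
  rw [← hr]
  exact isIntegral_algebraMap

variable [IsDomain R] [IsPrincipalIdealRing R] (K : Type*) [Field K] [Algebra R K]
  [IsFractionRing R K] [Algebra K Ω] [IsScalarTower R K Ω]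

theorem mem_range_of_integral {s : Ω} (h1 : IsIntegral R s) (h2 : s ∈ (algebraMap K Ω).range) :
    s ∈ (algebraMap R Ω).range := by
  obtain ⟨z, rfl⟩ := h2
  have : IsIntegral R z := (isIntegral_algebraMap_iff (algebraMap K Ω).injective).1 h1
  obtain ⟨r, rfl⟩ := IsIntegrallyClosed.isIntegral_iff.1 this
  exact ⟨r, IsScalarTower.algebraMap_apply R K Ω r⟩

theorem root_top (p : ℕ) [ExpChar Ω p] :
    root R Ω p ⊤ = clos R (perfectClosure K Ω) := by
  have : ExpChar K p := (algebraMap K Ω).expChar (algebraMap K Ω).injective p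
  ext x
  rw [mem_clos, mem_perfectClosure_iff_pow_mem p]
  constructor
  · intro h
    refine ⟨root_integral h, ?_⟩
    obtain ⟨n, -, r, hr⟩ := h
    exact ⟨n, algebraMap R K r, by rw [← IsScalarTower.algebraMap_apply, hr]⟩
  · rintro ⟨h1, n, h2⟩
    exact ⟨n, le_top, mem_range_of_integral K (h1.pow _) h2⟩

include K in
theorem root_pure (p : ℕ) [ExpChar Ω p] {i : ℕ∞} {r : R} (hr : r ≠ 0) {s : Ω}
    (hs : IsIntegral R s) (h : r • s ∈ root R Ω p i) : s ∈ root R Ω p i := by
  obtain ⟨n, hn, t, ht⟩ := h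
  refine ⟨n, hn, mem_range_of_integral K (hs.pow _) ?_⟩
  have hr' : algebraMap R K r ≠ 0 := by
    rwa [Ne, FaithfulSMul.algebraMap_eq_zero_iff]
  have hr'' : algebraMap K Ω (algebraMap R K r) ≠ 0 := by
    rwa [Ne, map_eq_zero]
  refine ⟨algebraMap R K t / (algebraMap R K r) ^ p ^ n, ?_⟩
  rw [map_div₀, map_pow, div_eq_iff (pow_ne_zero _ hr''), ← IsScalarTower.algebraMap_apply, ht,
    ← IsScalarTower.algebraMap_apply, Algebra.smul_def, mul_pow, mul_comm]

include K in
theorem free_root (p : ℕ) [ExpChar Ω p] (hfin : ∀ n : ℕ, (root R Ω p n).FG) :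
    Module.Free R (root R Ω p ⊤) := by
  have hinj : Function.Injective (algebraMap R Ω) := by
    rw [IsScalarTower.algebraMap_eq R K Ω]
    exact (algebraMap K Ω).injective.comp (IsFractionRing.injective R K)
  have : FaithfulSMul R Ω := (faithfulSMul_iff_algebraMap_injective R Ω).2 hinj
  refine free_of_chain (root R Ω p) (root_mono p) _ ((0 : ℕ) : ℕ∞) ?_ ?_ ?_
  · have : Module.Finite R (root R Ω p ((0 : ℕ) : ℕ∞)) := Module.Finite.iff_fg.2 (hfin 0)
    exact Module.free_of_finite_type_torsion_free'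
  · intro c _ hne
    refine ⟨sSup c, fun i hi => le_sSup hi, ?_⟩
    rintro x ⟨n, hn, hx⟩
    rcases n with _ | n
    · obtain ⟨i, hi⟩ := hne
      exact ⟨i, hi, 0, by simp, hx⟩
    · have h1 : (n : ℕ∞) < sSup c := lt_of_lt_of_le (by exact_mod_cast Nat.lt_succ_self n) hn
      obtain ⟨i, hi, h2⟩ := lt_sSup_iff.1 h1
      refine ⟨i, hi, n + 1, ?_, hx⟩
      push_cast
      exact Order.add_one_le_of_lt h2
  · intro i hi _
    have hi' : i ≠ ⊤ := fun h => hi (by rw [h])
    obtain ⟨n, rfl⟩ := ENat.ne_top_iff_exists.1 hi'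
    have : ∃ x ∈ root R Ω p ⊤, x ∉ root R Ω p n := by
      by_contra hcon
      push Not at hcon
      exact hi (le_antisymm (root_mono p le_top) hcon)
    obtain ⟨x, ⟨m, -, hm⟩, hx⟩ := this
    refine ⟨((max n m : ℕ) : ℕ∞), by exact_mod_cast le_max_left n m, ?_, ?_⟩
    · intro h
      apply hx
      rw [h]
      exact ⟨m, by exact_mod_cast le_max_right n m, hm⟩
    · exact free_quot_fg _ _ (hfin _) (fun r hr y hy h => root_pure K p hr (root_integral hy) h)

include K in
theorem free_closure (p : ℕ) [ExpChar Ω p] [IsAlgClosed Ω] [Algebra.IsAlgebraic K Ω]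
    (hfin : ∀ n : ℕ, (root R Ω p n).FG) :
    Module.Free R (integralClosure R Ω) := by
  have h0 := free_root K p hfin
  rw [root_top K p] at h0
  have : Algebra.IsAlgebraic R Ω := (IsFractionRing.comap_isAlgebraic_iff (K := K)).2 inferInstance
  have h1 := free_top (perfectClosure K Ω) h0
  have e : clos R (⊤ : IntermediateField K Ω) = (integralClosure R Ω).toSubmodule := by
    ext x
    simp [mem_clos, mem_integralClosure_iff]
  rw [e] at h1
  exact h1

open Polynomial in
theorem root_fg_poly (F : Type*) [Field F] [PerfectField F] (p : ℕ) {Ω : Type*} [Field Ω]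
    [ExpChar Ω p] [IsAlgClosed Ω] [Algebra F Ω] [Algebra F[X] Ω] [IsScalarTower F F[X] Ω]
    (n : ℕ) : (root F[X] Ω p n).FG := by
  have : ExpChar F p := (algebraMap F Ω).expChar (algebraMap F Ω).injective p
  have : PerfectRing F p := PerfectField.toPerfectRing p
  obtain ⟨y, hy⟩ := IsAlgClosed.exists_pow_nat_eq (algebraMap F[X] Ω X)
    (pow_pos (expChar_pos Ω p) n)
  have hyi : IsIntegral F[X] y := root_integral (p := p) (i := n) ⟨n, le_rfl, X, hy.symm⟩
  have hfg := hyi.fg_adjoin_singleton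
  refine Submodule.FG.of_le hfg ?_
  rintro s ⟨m, hm, hs⟩
  obtain ⟨g, hg⟩ := pow_mono p (by exact_mod_cast hm : m ≤ n) hs
  let h : F[X] := g.map (iterateFrobeniusEquiv F p n).symm.toRingHom
  have hh : h.map (iterateFrobenius F p n) = g := by
    simp only [h, Polynomial.map_map]
    have : (iterateFrobenius F p n).comp (iterateFrobeniusEquiv F p n).symm.toRingHom =
        RingHom.id F := by
      ext a
      exact (iterateFrobeniusEquiv F p n).apply_symm_apply a
    rw [this, Polynomial.map_id]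
  have h2 : (aeval y h) ^ p ^ n = s ^ p ^ n := by
    rw [← map_pow, ← map_iterateFrobenius_expand, map_expand, expand_aeval, hh, hy,
      aeval_algebraMap_apply, aeval_X_left_apply, hg]
  have h3 : aeval y h = s := iterateFrobenius_inj Ω p n h2
  rw [← h3, ← aeval_map_algebraMap F[X]]
  exact aeval_mem_adjoin_singleton F[X] y

end Pool.Agent.H.MP_f762b7_al
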