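import Pool.Agent.H.MP_f762b7_al.Chain

set_option autoImplicit false

namespace Pool.Agent.H.MP_f762b7_al

open Submodule Set

theorem sep_step (R L L' : Type*) [CommRing R] [IsDomain R] [Field L] [Field L'] [Algebra R L]
    [Algebra R L'] [FaithfulSMul R L] [Algebra L L'] [IsScalarTower R L L']
    [FiniteDimensional L L'] [Algebra.IsSeparable L L'] [Algebra.IsAlgebraic R L'] :
    ∃ (m : ℕ) (b : Fin m → L'), (∀ i, IsIntegral R (b i)) ∧
      ∀ a : L', (∀ i, Algebra.trace L L' (b i * a) = 0) ↔ a ∈ (algebraMap L L').range := by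
  let B := Algebra.traceForm L L'
  let W : Submodule L L' := LinearMap.range (Algebra.linearMap L L')
  let U := B.orthogonal W
  have hUW : B.orthogonal U = W :=
    LinearMap.BilinForm.orthogonal_orthogonal (traceForm_nondegenerate L L')
      (Algebra.traceForm_isSymm L).isRefl W
  let e := Module.finBasis L U
  choose c hc0 hc using fun i =>
    (Algebra.IsAlgebraic.isAlgebraic (R := R) (e i : L')).exists_integral_multiple
  refine ⟨_, fun i => c i • (e i : L'), hc, fun a => ?_⟩
  have key : ∀ i, Algebra.trace L L' ((c i • (e i : L')) * a) = 0 ↔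
      Algebra.trace L L' ((e i : L') * a) = 0 := by
    intro i
    rw [smul_mul_assoc, ← algebraMap_smul L (c i), map_smul, smul_eq_zero]
    have : algebraMap R L (c i) ≠ 0 := by
      rw [Ne, FaithfulSMul.algebraMap_eq_zero_iff]
      exact hc0 i
    simp [this]
  simp only [key]
  have h1 : a ∈ (algebraMap L L').range ↔ a ∈ W := Iff.rfl
  rw [h1, ← hUW]
  constructor
  · intro h u hu
    have : ((B.flip a) ∘ₗ U.subtype) = 0 := by
      apply e.ext
      intro i
      exact h i
    exact congrArg (fun f => f ⟨u, hu⟩) this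
  · intro h i
    exact h (e i) (e i).2

variable {R : Type*} [CommRing R] {K : Type*} [Field K] [Algebra R K]
  {Ω : Type*} [Field Ω] [Algebra K Ω] [Algebra R Ω] [IsScalarTower R K Ω]

variable (R) in
def clos (L : IntermediateField K Ω) : Submodule R Ω where
  carrier := {x | IsIntegral R x ∧ x ∈ L}
  add_mem' := fun ha hb => ⟨ha.1.add hb.1, add_mem ha.2 hb.2⟩
  zero_mem' := ⟨isIntegral_zero, zero_mem L⟩
  smul_mem' := fun c x hx => ⟨hx.1.smul c, by
    rw [← algebraMap_smul K c x]
    exact L.smul_mem hx.2⟩

theorem mem_clos {L : IntermediateField K Ω} {x : Ω} :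
    x ∈ clos R L ↔ IsIntegral R x ∧ x ∈ L := Iff.rfl

open IntermediateField in
theorem free_top [IsDomain R] [IsPrincipalIdealRing R] [FaithfulSMul R K]
    [Algebra.IsAlgebraic R Ω] [Algebra.IsAlgebraic K Ω]
    (L0 : IntermediateField K Ω) [PerfectField L0] (h0 : Module.Free R (clos R L0)) :
    Module.Free R (clos R (⊤ : IntermediateField K Ω)) := by
  refine free_of_chain (ι := {L : IntermediateField K Ω // L0 ≤ L}) (fun L => clos R L.1) ?_ _
    ⟨L0, le_rfl⟩ h0 ?_ ?_
  · intro L L' h x hx
    exact ⟨hx.1, h hx.2⟩
  · intro c hc hne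
    have : Nonempty c := hne.to_subtype
    obtain ⟨a, ha⟩ := hne
    refine ⟨⟨⨆ i : c, i.1.1, le_trans a.2 (le_iSup (fun i : c => i.1.1) ⟨a, ha⟩)⟩, ?_, ?_⟩
    · intro i hi
      exact le_iSup (fun i : c => i.1.1) ⟨i, hi⟩
    · intro x hx
      have hdir : Directed (· ≤ ·) (fun i : c => i.1.1) := by
        intro i j
        rcases hc.total i.2 j.2 with h | h
        · exact ⟨j, h, le_rfl⟩
        · exact ⟨i, le_rfl, h⟩
      have h2 : x ∈ ((⨆ i : c, i.1.1 : IntermediateField K Ω) : Set Ω) := hx.2
      rw [IntermediateField.coe_iSup_of_directed hdir, mem_iUnion] at h2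
      obtain ⟨i, hi⟩ := h2
      exact ⟨i.1, i.2, hx.1, hi⟩
  · rintro ⟨L, hL⟩ hne hfree
    have : ∃ y : Ω, IsIntegral R y ∧ y ∉ L := by
      by_contra hcon
      push Not at hcon
      apply hne
      ext x
      simp only [mem_clos, IntermediateField.mem_top, and_true, and_iff_left_iff_imp]
      exact hcon x
    obtain ⟨y, hy, hyL⟩ := this
    let E : IntermediateField L Ω := L⟮y⟯
    have hLE : L ≤ E.restrictScalars K := fun x hx => E.algebraMap_mem ⟨x, hx⟩
    refine ⟨⟨E.restrictScalars K, le_trans hL hLE⟩, hLE, ?_, ?_⟩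
    · intro h
      have : y ∈ clos R (E.restrictScalars K) := ⟨hy, mem_adjoin_simple_self L y⟩
      have h' : clos R L = clos R (E.restrictScalars K) := h
      rw [← h'] at this
      exact hyL this.2
    · have : IsScalarTower R L Ω := IsScalarTower.of_algebraMap_eq (fun r => by
        rw [IsScalarTower.algebraMap_apply R K Ω, IsScalarTower.algebraMap_apply R K L]
        rfl)
      have : FiniteDimensional L E := adjoin.finiteDimensional (hy.tower_top)
      have : PerfectField L := by
        let : Algebra L0 L := (IntermediateField.inclusion hL).toRingHom.toAlgebra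
        have : IsScalarTower K L0 L := IsScalarTower.of_algebraMap_eq (fun _ => rfl)
        have : Algebra.IsAlgebraic L0 L := Algebra.IsAlgebraic.tower_top (K := K) L0
        exact Algebra.IsAlgebraic.perfectField L0
      have : FaithfulSMul R L := by
        rw [faithfulSMul_iff_algebraMap_injective, IsScalarTower.algebraMap_eq R K L]
        exact (algebraMap K L).injective.comp (FaithfulSMul.algebraMap_injective R K)
      have : IsScalarTower R E Ω := IsScalarTower.of_algebraMap_eq (fun r => rfl)
      have : Algebra.IsAlgebraic R E :=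
        Algebra.IsAlgebraic.of_injective (IsScalarTower.toAlgHom R E Ω) Subtype.val_injective
      obtain ⟨m, b, hb, hab⟩ := sep_step R L E
      let j : clos R (E.restrictScalars K) →ₗ[R] E :=
        { toFun := fun x => ⟨x.1, x.2.2⟩
          map_add' := fun _ _ => rfl
          map_smul' := fun _ _ => rfl }
      have hj : ∀ x, IsIntegral R (j x) := fun x =>
        (isIntegral_algHom_iff (IsScalarTower.toAlgHom R E Ω) Subtype.val_injective).1 x.2.1
      let t : Fin m → (clos R (E.restrictScalars K) →ₗ[R] Ω) := fun i =>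
        (IsScalarTower.toAlgHom R L Ω).toLinearMap ∘ₗ
          ((Algebra.trace L E).restrictScalars R) ∘ₗ (LinearMap.mulLeft R (b i)) ∘ₗ j
      have ht : ∀ i x, t i x ∈ clos R L := by
        intro i x
        refine ⟨?_, (Algebra.trace L E (b i * j x)).2⟩
        exact (Algebra.isIntegral_trace ((hb i).mul (hj x))).map (IsScalarTower.toAlgHom R L Ω)
      let f : clos R (E.restrictScalars K) →ₗ[R] (Fin m → clos R L) :=
        LinearMap.pi (fun i => (t i).codRestrict _ (ht i))
      have := hfree
      refine free_quot_of_range _ f ?_ (free_sub _)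
      ext x
      rw [LinearMap.mem_ker]
      have e1 : f x = 0 ↔ ∀ i, Algebra.trace L E (b i * j x) = 0 := by
        rw [funext_iff]
        refine forall_congr' fun i => ?_
        rw [Subtype.ext_iff, Subtype.ext_iff]
        rfl
      rw [e1, hab]
      constructor
      · rintro ⟨z, hz⟩
        refine ⟨x.2.1, ?_⟩
        have : (x : Ω) = z := (congrArg Subtype.val hz).symm
        change (x : Ω) ∈ L
        rw [this]
        exact z.2
      · intro hx
        exact ⟨⟨x, hx.2⟩, rfl⟩

end Pool.Agent.H.MP_f762b7_al
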